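import Pool.Agent.Helper83.CB.Defs4

/-!
# CB module GR2 (helper67): trace polynomials of the Grassmann connection
-/

open Filter Topology MeasureTheory TensorProduct

namespace Pool.Agent.Helper83.CB

section GR2abs

variable {A B B' : Type*} [Ring A] [Algebra ℝ A] [Ring B] [Algebra ℝ B] [Ring B'] [Algebra ℝ B']

/-- extension of a linear form to the tensor product -/
noncomputable def GR2_T (τ : A →ₗ[ℝ] ℝ) (B : Type*) [Ring B] [Algebra ℝ B] :
    A ⊗[ℝ] B →ₗ[ℝ] B :=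
  (TensorProduct.lid ℝ B).toLinearMap ∘ₗ TensorProduct.map τ LinearMap.id

theorem GR2_T_tmul (τ : A →ₗ[ℝ] ℝ) (a : A) (b : B) : GR2_T τ B (a ⊗ₜ b) = τ a • b := by
  simp [GR2_T]

theorem GR2_T_map (τ : A →ₗ[ℝ] ℝ) (ψ : B →ₐ[ℝ] B') (x : A ⊗[ℝ] B) :
    GR2_T τ B' (Algebra.TensorProduct.map (AlgHom.id ℝ A) ψ x) = ψ (GR2_T τ B x) := by
  induction x using TensorProduct.induction_on with
  | zero => simp
  | tmul a b => simp [GR2_T_tmul]
  | add x y hx hy => simp only [map_add, hx, hy]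

/-- elements of odd parity in the second factor -/
def GR2_odd {ι : Type*} (e : ι → B) : Submodule ℝ (A ⊗[ℝ] B) :=
  Submodule.span ℝ {x | ∃ (a : A) (b : B), (∀ μ, b * e μ = -(e μ * b)) ∧ x = a ⊗ₜ b}

/-- the square of an odd one-form -/
noncomputable def GR2_th {ι : Type*} [Fintype ι] (D : ι → A) (e : ι → B) : A ⊗[ℝ] B :=
  ∑ μ, D μ ⊗ₜ e μ

theorem GR2_even_mul {ι : Type*} [Fintype ι] (D : ι → A) (e : ι → B)
    (he : ∀ μ ν, e μ * e ν = -(e ν * e μ)) (x : A ⊗[ℝ] B) (hx : x ∈ GR2_odd (A := A) e) :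
    GR2_th D e * GR2_th D e * x ∈ GR2_odd (A := A) e := by
  refine Submodule.span_induction (p := fun x _ => GR2_th D e * GR2_th D e * x ∈ GR2_odd (A := A) e)
    ?_ ?_ ?_ ?_ hx
  · rintro x ⟨a, b, hb, rfl⟩
    simp only [GR2_th, Finset.sum_mul, Finset.mul_sum, Algebra.TensorProduct.tmul_mul_tmul]
    refine Submodule.sum_mem _ fun μ _ => Submodule.sum_mem _ fun ν _ =>
      Submodule.subset_span ⟨_, _, ?_, rfl⟩
    intro ρ
    calc e ν * e μ * b * e ρ = e ν * e μ * (b * e ρ) := by noncomm_ring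
      _ = -(e ν * (e μ * e ρ) * b) := by rw [hb]; noncomm_ring
      _ = (e ν * e ρ) * e μ * b := by rw [he μ ρ]; noncomm_ring
      _ = -(e ρ * (e ν * e μ * b)) := by rw [he ν ρ]; noncomm_ring
  · simp
  · intro x y _ _ hx hy
    rw [mul_add]
    exact Submodule.add_mem _ hx hy
  · intro r x _ hx
    rw [mul_smul_comm]
    exact Submodule.smul_mem _ _ hx

theorem GR2_odd_pow {ι : Type*} [Fintype ι] (D : ι → A) (e : ι → B)
    (he : ∀ μ ν, e μ * e ν = -(e ν * e μ)) (k : ℕ) :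
    GR2_th D e ^ (2 * k + 1) ∈ GR2_odd (A := A) e := by
  induction k with
  | zero =>
    simp only [Nat.mul_zero, Nat.zero_add, pow_one, GR2_th]
    refine Submodule.sum_mem _ fun μ _ => Submodule.subset_span ⟨_, _, fun ν => he μ ν, rfl⟩
  | succ k ih =>
    have : GR2_th D e ^ (2 * (k + 1) + 1) = GR2_th D e * GR2_th D e * GR2_th D e ^ (2 * k + 1) := by
      rw [← pow_two, ← pow_add]
      congr 1
      ring
    rw [this]
    exact GR2_even_mul D e he _ ih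

theorem GR2_cyc {ι : Type*} [Fintype ι] (D : ι → A) (e : ι → B) (τ : A →ₗ[ℝ] ℝ)
    (hτ : ∀ a a', τ (a * a') = τ (a' * a)) (x : A ⊗[ℝ] B) (hx : x ∈ GR2_odd (A := A) e) :
    GR2_T τ B (GR2_th D e * x) = -GR2_T τ B (x * GR2_th D e) := by
  refine Submodule.span_induction
    (p := fun x _ => GR2_T τ B (GR2_th D e * x) = -GR2_T τ B (x * GR2_th D e)) ?_ ?_ ?_ ?_ hx
  · rintro x ⟨a, b, hb, rfl⟩
    simp only [GR2_th, Finset.sum_mul, Finset.mul_sum, Algebra.TensorProduct.tmul_mul_tmul,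
      map_sum, GR2_T_tmul, ← Finset.sum_neg_distrib]
    refine Finset.sum_congr rfl fun μ _ => ?_
    rw [hb, smul_neg, neg_neg, hτ]
  · simp
  · intro x y _ _ hx hy
    rw [mul_add, add_mul, map_add, map_add, hx, hy, neg_add]
  · intro r x _ hx
    rw [mul_smul_comm, smul_mul_assoc, map_smul, map_smul, hx, smul_neg]

/-- the trace of an even power of an odd form vanishes -/
theorem GR2_tr_pow {ι : Type*} [Fintype ι] (D : ι → A) (e : ι → B) (τ : A →ₗ[ℝ] ℝ)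
    (hτ : ∀ a a', τ (a * a') = τ (a' * a)) (he : ∀ μ ν, e μ * e ν = -(e ν * e μ)) (k : ℕ) :
    GR2_T τ B (GR2_th D e ^ (2 * (k + 1))) = 0 := by
  have h1 := GR2_cyc D e τ hτ _ (GR2_odd_pow D e he k)
  have h2 : GR2_th D e * GR2_th D e ^ (2 * k + 1) = GR2_th D e ^ (2 * (k + 1)) := by
    rw [← pow_succ']
    congr 1
  have h3 : GR2_th D e ^ (2 * k + 1) * GR2_th D e = GR2_th D e ^ (2 * (k + 1)) := by
    rw [← pow_succ]
    congr 1
  rw [h2, h3] at h1
  set z := GR2_T τ B (GR2_th D e ^ (2 * (k + 1))) with hz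
  have h4 : (2 : ℝ) • z = 0 := by
    rw [two_smul]
    nth_rewrite 1 [h1]
    exact neg_add_cancel z
  exact (smul_eq_zero.mp h4).resolve_left two_ne_zero

/-- polynomial identities of trace type extend to commuting two-forms -/
theorem GR2_expand {m : ℕ} (τ : A →ₗ[ℝ] ℝ) (j : ℕ) (Y : Fin m → A)
    (Pt : MvPolynomial (Fin m) ℝ)
    (hP : ∀ t : Fin m → ℝ, MvPolynomial.eval t Pt = τ ((∑ i, t i • Y i) ^ j))
    (Ψ : MvPolynomial (Fin m) ℝ →ₐ[ℝ] B) :
    Ψ Pt = GR2_T τ B ((∑ i, Y i ⊗ₜ Ψ (MvPolynomial.X i)) ^ j) := by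
  have key : Pt = GR2_T τ (MvPolynomial (Fin m) ℝ)
      ((∑ i, Y i ⊗ₜ (MvPolynomial.X i : MvPolynomial (Fin m) ℝ)) ^ j) := by
    refine MvPolynomial.funext fun t => ?_
    rw [hP]
    have h1 : ∀ Q : MvPolynomial (Fin m) ℝ, MvPolynomial.eval t Q = MvPolynomial.aeval t Q := by
      intro Q
      rw [MvPolynomial.aeval_eq_eval]
    rw [h1, ← GR2_T_map, map_pow (Algebra.TensorProduct.map (AlgHom.id ℝ A) (MvPolynomial.aeval t)),
      map_sum (Algebra.TensorProduct.map (AlgHom.id ℝ A) (MvPolynomial.aeval t))]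
    have h2 : (∑ i, (Algebra.TensorProduct.map (AlgHom.id ℝ A) (MvPolynomial.aeval t))
        (Y i ⊗ₜ[ℝ] (MvPolynomial.X i : MvPolynomial (Fin m) ℝ))) =
        (∑ i, t i • Y i) ⊗ₜ[ℝ] (1 : ℝ) := by
      rw [TensorProduct.sum_tmul]
      refine Finset.sum_congr rfl fun i _ => ?_
      rw [Algebra.TensorProduct.map_tmul, MvPolynomial.aeval_X, AlgHom.id_apply,
        TensorProduct.smul_tmul, smul_eq_mul, mul_one]
    rw [h2, Algebra.TensorProduct.tmul_pow, one_pow, GR2_T_tmul, smul_eq_mul, mul_one]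
  conv_lhs => rw [key]
  rw [← GR2_T_map, map_pow, map_sum]
  simp

end GR2abs

section GR2khat

variable {A A' B : Type*} [Ring A] [Algebra ℝ A] [Ring A'] [Algebra ℝ A'] [Ring B] [Algebra ℝ B]
  (κ : A →ₗ[ℝ] A') (π : A) (τ : A →ₗ[ℝ] ℝ) (τ' : A' →ₗ[ℝ] ℝ)

/-- compression on forms -/
noncomputable def GR2_kh (B : Type*) [Ring B] [Algebra ℝ B] : A ⊗[ℝ] B →ₗ[ℝ] A' ⊗[ℝ] B :=
  TensorProduct.map κ LinearMap.id

theorem GR2_kh_tmul (a : A) (b : B) : GR2_kh κ B (a ⊗ₜ b) = κ a ⊗ₜ b := rfl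

theorem GR2_khat_mul (h : ∀ X Y, κ X * κ Y = κ (X * π * Y)) (x y : A ⊗[ℝ] B) :
    GR2_kh κ B x * GR2_kh κ B y = GR2_kh κ B (x * (π ⊗ₜ 1) * y) := by
  induction x using TensorProduct.induction_on with
  | zero => simp
  | add x x' hx hx' => simp only [map_add, add_mul, hx, hx']
  | tmul X b =>
    induction y using TensorProduct.induction_on with
    | zero => simp
    | add y y' hy hy' => simp only [map_add, mul_add, hy, hy']
    | tmul Y c =>
      simp only [GR2_kh_tmul, Algebra.TensorProduct.tmul_mul_tmul, mul_one, h]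

theorem GR2_khat_pi (h : ∀ X, κ (X * π) = κ X) (x : A ⊗[ℝ] B) :
    GR2_kh κ B (x * (π ⊗ₜ 1)) = GR2_kh κ B x := by
  induction x using TensorProduct.induction_on with
  | zero => simp
  | add x x' hx hx' => simp only [map_add, add_mul, hx, hx']
  | tmul X b =>
    simp only [GR2_kh_tmul, Algebra.TensorProduct.tmul_mul_tmul, mul_one, h]

theorem GR2_khat_T (h : ∀ X, τ' (κ X) = τ (π * X)) (x : A ⊗[ℝ] B) :
    GR2_T τ' B (GR2_kh κ B x) = GR2_T τ B ((π ⊗ₜ 1) * x) := by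
  induction x using TensorProduct.induction_on with
  | zero => simp
  | add x x' hx hx' => simp only [map_add, mul_add, hx, hx']
  | tmul X b =>
    simp only [GR2_kh_tmul, Algebra.TensorProduct.tmul_mul_tmul, one_mul, GR2_T_tmul, h]

theorem GR2_khat_pow (h1 : ∀ X Y, κ X * κ Y = κ (X * π * Y)) (h2 : ∀ X, κ (X * π) = κ X)
    (x : A ⊗[ℝ] B) (hx : (π ⊗ₜ 1) * x = x * (π ⊗ₜ 1)) (j : ℕ) :
    (GR2_kh κ B x) ^ (j + 1) = GR2_kh κ B (x ^ (j + 1)) := by
  induction j with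
  | zero => simp
  | succ j ih =>
    rw [pow_succ, ih, GR2_khat_mul κ π h1, mul_assoc, hx, ← mul_assoc, ← pow_succ,
      GR2_khat_pi κ π h2]

/-- the main computation, abstractly: `A` matrices, `π` the projection, `i` a central element with
`i * i = -1` -/
theorem GR2_main {ι : Type*} [Fintype ι] (D : ι → A) (e : ι → B) (i : A) (φ : ι → ι → ℝ)
    (he : ∀ μ ν, e μ * e ν = -(e ν * e μ)) (hi : ∀ a, i * a = a * i)
    (hτ : ∀ a a', τ (a * a') = τ (a' * a))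
    (h1 : ∀ X Y, κ X * κ Y = κ (X * π * Y)) (h2 : ∀ X, κ (X * π) = κ X)
    (h3 : ∀ X, τ' (κ X) = τ (π * X)) (hπ : π * π = π) (hD : ∀ μ, D μ = π * D μ + D μ * π)
    (hφ : ∀ μ ν, (1 - π) * (i * (D μ * D ν - D ν * D μ)) * (1 - π) = φ μ ν • (1 - π))
    (htr : τ (1 - π) = 1) (j : ℕ) :
    GR2_T τ' B ((∑ μ, ∑ ν, κ ((1 / 2 : ℝ) • (i * (D μ * D ν - D ν * D μ))) ⊗ₜ (e μ * e ν)) ^ (j + 1)) =
      -(((1 / 2 : ℝ) • ∑ μ, ∑ ν, φ μ ν • (e μ * e ν)) ^ (j + 1)) := by
  set W : A ⊗[ℝ] B := ∑ μ, ∑ ν, ((1 / 2 : ℝ) • (i * (D μ * D ν - D ν * D μ))) ⊗ₜ (e μ * e ν) with hW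
  have hW1 : (∑ μ, ∑ ν, κ ((1 / 2 : ℝ) • (i * (D μ * D ν - D ν * D μ))) ⊗ₜ (e μ * e ν) : A' ⊗[ℝ] B) =
      GR2_kh κ B W := by
    simp only [hW, map_sum, GR2_kh_tmul]
  -- the off-diagonal form of `D`
  have hDa : ∀ μ, D μ * π = (1 - π) * D μ := by
    intro μ
    have := hD μ
    rw [sub_mul, one_mul, eq_sub_iff_add_eq, add_comm]
    exact this.symm
  have hDb : ∀ μ, π * D μ = D μ * (1 - π) := by
    intro μ
    have := hD μ
    rw [mul_sub, mul_one, eq_sub_iff_add_eq]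
    exact this.symm
  have hDD : ∀ μ ν, π * (D μ * D ν) = D μ * D ν * π := by
    intro μ ν
    calc π * (D μ * D ν) = (π * D μ) * D ν := by noncomm_ring
      _ = D μ * ((1 - π) * D ν) := by rw [hDb]; noncomm_ring
      _ = D μ * D ν * π := by rw [← hDa]; noncomm_ring
  have hpW : (π ⊗ₜ 1) * W = W * (π ⊗ₜ 1) := by
    simp only [hW, Finset.mul_sum, Finset.sum_mul, Algebra.TensorProduct.tmul_mul_tmul, one_mul,
      mul_one]
    refine Finset.sum_congr rfl fun μ _ => Finset.sum_congr rfl fun ν _ => ?_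
    congr 1
    rw [mul_smul_comm, smul_mul_assoc, ← mul_assoc π i, ← hi π, mul_assoc, mul_assoc, mul_sub, sub_mul,
      hDD, hDD]
  have hW2 : W = (i ⊗ₜ 1) * (GR2_th D e * GR2_th D e) := by
    have e1 : GR2_th D e * GR2_th D e = ∑ μ, ∑ ν, (D μ * D ν) ⊗ₜ[ℝ] (e μ * e ν) := by
      simp only [GR2_th, Finset.sum_mul, Finset.mul_sum, Algebra.TensorProduct.tmul_mul_tmul]
      rw [Finset.sum_comm]
    have e2 : ∑ μ, ∑ ν, (D ν * D μ) ⊗ₜ[ℝ] (e μ * e ν) = -∑ μ, ∑ ν, (D μ * D ν) ⊗ₜ[ℝ] (e μ * e ν) := by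
      rw [Finset.sum_comm]
      simp only [← Finset.sum_neg_distrib]
      refine Finset.sum_congr rfl fun μ _ => Finset.sum_congr rfl fun ν _ => ?_
      rw [he ν μ, TensorProduct.tmul_neg]
    have e3 : W = (i ⊗ₜ 1) * ((1 / 2 : ℝ) • (∑ μ, ∑ ν, (D μ * D ν) ⊗ₜ[ℝ] (e μ * e ν) -
        ∑ μ, ∑ ν, (D ν * D μ) ⊗ₜ[ℝ] (e μ * e ν))) := by
      rw [hW]
      simp only [← Finset.sum_sub_distrib, Finset.smul_sum, Finset.mul_sum, ← TensorProduct.sub_tmul]
      refine Finset.sum_congr rfl fun μ _ => Finset.sum_congr rfl fun ν _ => ?_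
      rw [mul_smul_comm, Algebra.TensorProduct.tmul_mul_tmul, one_mul, TensorProduct.smul_tmul']
    rw [e3, e2, e1, sub_neg_eq_add, ← two_smul ℝ, smul_smul]
    norm_num
  have hcomm : Commute ((i ⊗ₜ 1 : A ⊗[ℝ] B)) (GR2_th D e * GR2_th D e) := by
    simp only [GR2_th, Finset.sum_mul, Finset.mul_sum, Algebra.TensorProduct.tmul_mul_tmul]
    refine Commute.sum_right _ _ _ fun μ _ => Commute.sum_right _ _ _ fun ν _ => ?_
    rw [commute_iff_eq, Algebra.TensorProduct.tmul_mul_tmul, Algebra.TensorProduct.tmul_mul_tmul,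
      hi, one_mul, mul_one]
  have hT0 : GR2_T τ B (W ^ (j + 1)) = 0 := by
    rw [hW2, hcomm.mul_pow, Algebra.TensorProduct.tmul_pow, one_pow, ← pow_two, ← pow_mul]
    have e4 : ∀ x : A ⊗[ℝ] B, GR2_T τ B ((i ^ (j + 1)) ⊗ₜ 1 * x) =
        GR2_T (τ ∘ₗ LinearMap.mulLeft ℝ (i ^ (j + 1))) B x := by
      intro x
      induction x using TensorProduct.induction_on with
      | zero => simp
      | add x x' hx hx' => simp only [map_add, mul_add, hx, hx']
      | tmul X b =>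
        simp only [Algebra.TensorProduct.tmul_mul_tmul, one_mul, GR2_T_tmul, LinearMap.comp_apply,
          LinearMap.mulLeft_apply]
    rw [e4]
    refine GR2_tr_pow D e _ ?_ he j
    intro a a'
    have hij : ∀ a, i ^ (j + 1) * a = a * i ^ (j + 1) := fun a =>
      ((Commute.pow_left (show Commute i a from hi a) (j + 1)))
    simp only [LinearMap.comp_apply, LinearMap.mulLeft_apply]
    rw [← mul_assoc, hij, mul_assoc, hτ, mul_assoc, hij, mul_assoc]
  set q : A := 1 - π with hq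
  set T2 : B := (1 / 2 : ℝ) • ∑ μ, ∑ ν, φ μ ν • (e μ * e ν) with hT2
  have hqq : q * q = q := by
    rw [hq]
    calc (1 - π) * (1 - π) = 1 - π - π + π * π := by noncomm_ring
      _ = 1 - π := by rw [hπ]; abel
  have hq1 : (q ⊗ₜ 1 : A ⊗[ℝ] B) = 1 - π ⊗ₜ 1 := by
    rw [hq, TensorProduct.sub_tmul, Algebra.TensorProduct.one_def]
  have hqW : (q ⊗ₜ 1) * W = W * (q ⊗ₜ 1) := by
    rw [hq1, sub_mul, mul_sub, one_mul, mul_one, hpW]
  have hqW2 : (q ⊗ₜ 1) * W = q ⊗ₜ T2 := by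
    have e5 : (q ⊗ₜ 1 : A ⊗[ℝ] B) * W = (q ⊗ₜ 1) * W * (q ⊗ₜ 1) := by
      rw [mul_assoc, ← hqW, ← mul_assoc, Algebra.TensorProduct.tmul_mul_tmul, hqq, one_mul]
    rw [e5]
    simp only [hW, Finset.mul_sum, Finset.sum_mul, Algebra.TensorProduct.tmul_mul_tmul, one_mul,
      mul_one, hT2, Finset.smul_sum, TensorProduct.tmul_sum]
    refine Finset.sum_congr rfl fun μ _ => Finset.sum_congr rfl fun ν _ => ?_
    rw [mul_smul_comm, smul_mul_assoc, hφ, TensorProduct.tmul_smul, TensorProduct.tmul_smul,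
      TensorProduct.smul_tmul', TensorProduct.smul_tmul']
  have hqW3 : (q ⊗ₜ 1) * W ^ (j + 1) = q ⊗ₜ (T2 ^ (j + 1)) := by
    clear hT0
    induction j with
    | zero => simpa using hqW2
    | succ j ih =>
      have e6 : (q ⊗ₜ[ℝ] (T2 ^ (j + 1)) : A ⊗[ℝ] B) = q ⊗ₜ (T2 ^ (j + 1)) * (q ⊗ₜ 1) := by
        rw [Algebra.TensorProduct.tmul_mul_tmul, hqq, mul_one]
      rw [pow_succ, ← mul_assoc, ih, e6, mul_assoc, hqW2, Algebra.TensorProduct.tmul_mul_tmul, hqq,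
        ← pow_succ]
  have e7 : (π ⊗ₜ 1 : A ⊗[ℝ] B) = 1 - q ⊗ₜ 1 := by
    rw [hq1]
    abel
  rw [hW1, GR2_khat_pow κ π h1 h2 W hpW, GR2_khat_T κ π τ τ' h3, e7, sub_mul, one_mul, hqW3, map_sub,
    hT0, GR2_T_tmul, htr, one_smul, zero_sub]

end GR2khat


/-- real part of the trace -/
noncomputable def GR2_tau (n : ℕ) : M n →ₗ[ℝ] ℝ where
  toFun Z := (LinearMap.trace ℂ (E n) (Z : E n →ₗ[ℂ] E n)).re
  map_add' X Y := by
    rw [ContinuousLinearMap.toLinearMap_add, map_add, Complex.add_re]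
  map_smul' r X := by
    have h : ((r • X : M n) : E n →ₗ[ℂ] E n) = (r : ℂ) • (X : E n →ₗ[ℂ] E n) := by
      ext x i
      simp
    rw [h, map_smul, smul_eq_mul, Complex.re_ofReal_mul]
    rfl

theorem GR2_tau_apply (n : ℕ) (Z : M n) :
    GR2_tau n Z = (LinearMap.trace ℂ (E n) (Z : E n →ₗ[ℂ] E n)).re := rfl

theorem GR2_tau_comm (n : ℕ) (z : ℂ) (X Y : M n) :
    GR2_tau n (z • (X * Y)) = GR2_tau n (z • (Y * X)) := by
  rw [GR2_tau_apply, GR2_tau_apply]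
  have h : ∀ X Y : M n, ((z • (X * Y) : M n) : E n →ₗ[ℂ] E n) =
      z • ((X : E n →ₗ[ℂ] E n) * (Y : E n →ₗ[ℂ] E n)) := fun X Y => rfl
  rw [h, h, map_smul, map_smul, LinearMap.trace_mul_comm]

/-- compression -/
noncomputable def GR2_kap {n : ℕ} (K : E (n + 1) →L[ℂ] E n) (L : E n →L[ℂ] E (n + 1)) :
    M (n + 1) →ₗ[ℝ] M n where
  toFun Y := K.comp (Y.comp L)
  map_add' X Y := by ext; simp
  map_smul' r X := by
    ext x i
    have h : ((r • X : M (n + 1)) : E (n + 1) →L[ℂ] E (n + 1)) = (r : ℂ) • X := by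
      ext x i
      simp
    rw [h]
    simp

theorem GR2_kap_apply {n : ℕ} (K : E (n + 1) →L[ℂ] E n) (L : E n →L[ℂ] E (n + 1))
    (Y : M (n + 1)) : GR2_kap K L Y = K.comp (Y.comp L) := rfl

section GR2conc

variable {n : ℕ} (K : E (n + 1) →L[ℂ] E n) (L : E n →L[ℂ] E (n + 1)) (π : M (n + 1))

theorem GR2_kap_mul (hLK : L.comp K = π) (X Y : M (n + 1)) :
    GR2_kap K L X * GR2_kap K L Y = GR2_kap K L (X * π * Y) := by
  subst hLK
  rfl

theorem GR2_kap_pi (hKL : K.comp L = ContinuousLinearMap.id ℂ (E n)) (hLK : L.comp K = π)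
    (X : M (n + 1)) : GR2_kap K L (X * π) = GR2_kap K L X := by
  subst hLK
  ext z
  have h : ∀ z, K (L z) = z := fun z => by
    have := congrArg (fun T : E n →L[ℂ] E n => T z) hKL
    simpa using this
  simp [GR2_kap_apply, h]

theorem GR2_kap_tau (hLK : L.comp K = π) (X : M (n + 1)) :
    GR2_tau n (GR2_kap K L X) = GR2_tau (n + 1) (π * X) := by
  subst hLK
  rw [GR2_tau_apply, GR2_tau_apply]
  have h1 : ((GR2_kap K L X : M n) : E n →ₗ[ℂ] E n) =
      (K : E (n + 1) →ₗ[ℂ] E n) ∘ₗ ((X : E (n + 1) →ₗ[ℂ] E (n + 1)) ∘ₗ (L : E n →ₗ[ℂ] E (n + 1))) := rfl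
  have h2 : (((L.comp K) * X : M (n + 1)) : E (n + 1) →ₗ[ℂ] E (n + 1)) =
      (L : E n →ₗ[ℂ] E (n + 1)) ∘ₗ ((K : E (n + 1) →ₗ[ℂ] E n) ∘ₗ (X : E (n + 1) →ₗ[ℂ] E (n + 1))) := rfl
  rw [h1, h2, ← LinearMap.comp_assoc, LinearMap.trace_comp_comm']

end GR2conc

/-- the complementary projection has rank one -/
theorem GR2_rank {m : ℕ} (π : M m) (h : HypProj π) :
    ∃ v : E m, inner ℂ v v = 1 ∧ ∀ x, (1 - π) x = inner ℂ v x • v := by
  obtain ⟨h1, h2, f, hf, hr⟩ := h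
  set w := (InnerProductSpace.toDual ℂ (E m)).symm f with hw
  have hfw : ∀ x, f x = inner ℂ w x := fun x => by
    rw [hw, InnerProductSpace.toDual_symm_apply]
  have hmem : ∀ x, inner ℂ w x = 0 → π x = x := by
    intro x hx
    have : x ∈ rg π := by
      rw [hr]
      change f x = 0
      rw [hfw, hx]
    obtain ⟨y, rfl⟩ := this
    have := congrArg (fun T : E m →L[ℂ] E m => T y) h1
    simpa using this
  have hwx : ∀ x, inner ℂ w (π x) = 0 := by
    intro x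
    have : π x ∈ kr f := by
      rw [← hr]
      exact ⟨x, rfl⟩
    rw [← hfw]
    exact this
  have hpw : π w = 0 := by
    have h3 : inner ℂ (π w) (π w) = 0 := by
      have h4 : ContinuousLinearMap.adjoint π = π := h2
      rw [← ContinuousLinearMap.adjoint_inner_right, h4]
      have h5 := congrArg (fun T : E m →L[ℂ] E m => T w) h1
      have h6 : π (π w) = π w := by simpa using h5
      rw [h6, hwx]
    exact inner_self_eq_zero.mp h3
  have hw0 : w ≠ 0 := by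
    intro h0
    apply hf
    ext x
    simp [hfw, h0]
  have hn : (‖w‖ : ℂ) ≠ 0 := by
    simpa using hw0
  refine ⟨((‖w‖⁻¹ : ℝ) : ℂ) • w, ?_, ?_⟩
  · rw [inner_smul_left, inner_smul_right, inner_self_eq_norm_sq_to_K]
    simp
    field_simp
  · intro x
    have h7 : inner ℂ w (x - inner ℂ (((‖w‖⁻¹ : ℝ) : ℂ) • w) x • ((‖w‖⁻¹ : ℝ) : ℂ) • w) = 0 := by
      rw [inner_sub_right, inner_smul_right, inner_smul_right, inner_smul_left,
        inner_self_eq_norm_sq_to_K]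
      simp
      field_simp
      ring
    have h8 := hmem _ h7
    rw [map_sub, map_smul, map_smul, hpw, smul_zero, smul_zero, sub_zero] at h8
    have h9 : (1 - π) x = x - π x := rfl
    rw [h9, h8]
    abel

theorem GR2_rank_tr {m : ℕ} (π : M m) (v : E m) (hv : ∀ x, (1 - π) x = inner ℂ v x • v)
    (Y : M m) : LinearMap.trace ℂ (E m)
      (((1 - π) * Y : M m) : E m →ₗ[ℂ] E m) = inner ℂ v (Y v) := by
  have h1 : (((1 - π) * Y : M m) : E m →ₗ[ℂ] E m) =
      (((innerSL ℂ v).comp Y : E m →L[ℂ] ℂ) : E m →ₗ[ℂ] ℂ).smulRight v := by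
    ext x i
    have h2 : (((1 - π) * Y : M m) : E m →ₗ[ℂ] E m) x = (1 - π) (Y x) := rfl
    rw [h2, hv]
    rfl
  rw [h1, LinearMap.trace_smulRight]
  rfl

theorem GR2_rank_mul {m : ℕ} (π : M m) (v : E m) (hv : ∀ x, (1 - π) x = inner ℂ v x • v)
    (Y : M m) : (1 - π) * Y * (1 - π) = (inner ℂ v (Y v) : ℂ) • (1 - π) := by
  ext x i
  have h3 : ((1 - π) * Y * (1 - π)) x = (1 - π) (Y ((1 - π) x)) := rfl
  have h4 : ((inner ℂ v (Y v) : ℂ) • (1 - π)) x = (inner ℂ v (Y v) : ℂ) • ((1 - π) x) := rfl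
  rw [h3, h4, hv, hv, map_smul, inner_smul_right, smul_smul, mul_comm]

theorem GR2_real {m : ℕ} (v : E m) (X Y : M m) (hX : star X = X) (hY : star Y = Y) :
    (((-Complex.I) * inner ℂ v ((X * Y - Y * X) v)).re : ℂ) =
      (-Complex.I) * inner ℂ v ((X * Y - Y * X) v) := by
  have hX' : ContinuousLinearMap.adjoint X = X := hX
  have hY' : ContinuousLinearMap.adjoint Y = Y := hY
  have h1 : inner ℂ v ((X * Y - Y * X) v) = inner ℂ (X v) (Y v) - inner ℂ (Y v) (X v) := by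
    have h2 : (X * Y - Y * X) v = X (Y v) - Y (X v) := rfl
    rw [h2, inner_sub_right]
    congr 1
    · rw [← ContinuousLinearMap.adjoint_inner_left, hX']
    · rw [← ContinuousLinearMap.adjoint_inner_left, hY']
  have h3 : (inner ℂ (Y v) (X v) : ℂ).re = (inner ℂ (X v) (Y v) : ℂ).re := by
    rw [← inner_conj_symm (Y v) (X v), Complex.conj_re]
  rw [h1]
  apply Complex.ext
  · simp
  · simp [h3]

theorem GR2_scal {m : ℕ} (r : ℝ) (X : M m) : r • X = (r : ℂ) • X := by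
  ext x i
  simp

theorem st_GR2 (hEV : ST_EV) (hEVEN : ST_EVEN) : ST_GR2 := by
  intro ι _ _ Λ n q j c P K L π D hj hP hKL hLK hπ hDs hD
  obtain ⟨-, hev2, hev3⟩ := hEVEN ι Λ
  set F : ι → ι → M n := fun μ ν => K.comp ((D μ * D ν - D ν * D μ).comp L) with hF
  set f : Fin q → (Λ.X →L[ℝ] Λ.X) := fun a => Λ.two (fun μ ν => c a (F μ ν)) with hf
  obtain ⟨Φ, hΦ, hΦX, -⟩ := hEV q _ f (fun i j => hev2 _ (hev3 _) _ (hev3 _))
  set m := Fintype.card (ι × ι) with hm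
  set eqv : ι × ι ≃ Fin m := Fintype.equivFin (ι × ι) with heqv
  set ε : Fin m → (Λ.X →L[ℝ] Λ.X) := fun i => Λ.e (eqv.symm i).1 * Λ.e (eqv.symm i).2 with hε
  have hεev : ∀ i, ε i ∈ Λ.ev := fun i => Algebra.subset_adjoin ⟨_, _, rfl⟩
  obtain ⟨Ψ, -, hΨX, -⟩ := hEV m _ ε (fun i j => hev2 _ (hεev i) _ (hεev j))
  set G : Fin m → M n := fun i => F (eqv.symm i).1 (eqv.symm i).2 with hG
  set al : MvPolynomial (Fin q) ℝ →ₐ[ℝ] MvPolynomial (Fin m) ℝ := MvPolynomial.aeval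
    (fun a => ∑ i, MvPolynomial.C (c a (G i) / 2) * MvPolynomial.X i) with hal
  have hcomp : Φ = Ψ.comp al := by
    refine MvPolynomial.algHom_ext fun a => ?_
    rw [hΦX, AlgHom.comp_apply, hal, MvPolynomial.aeval_X, map_sum]
    simp only [map_mul, hΨX]
    have h1 : ∀ r : ℝ, Ψ (MvPolynomial.C r) = algebraMap ℝ _ r := fun r =>
      AlgHomClass.commutes Ψ r
    simp only [h1, ← Algebra.smul_def]
    rw [hf]
    simp only [Ext.two, hε, hG]
    rw [← Equiv.sum_comp eqv, Finset.smul_sum, Fintype.sum_prod_type]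
    refine Finset.sum_congr rfl fun μ _ => ?_
    rw [Finset.smul_sum]
    refine Finset.sum_congr rfl fun ν _ => ?_
    simp only [Equiv.symm_apply_apply]
    rw [smul_smul]
    congr 1
    ring
  have hPF : PF Λ c P F = Ψ (al P) := by
    rw [← AlgHom.comp_apply, ← hcomp, hΦ]
    rfl
  set Y : Fin m → M n := fun i => (1 / 2 : ℝ) • ((-Complex.I) • G i) with hY
  have hPt : ∀ t : Fin m → ℝ, MvPolynomial.eval t (al P) = GR2_tau n ((∑ i, t i • Y i) ^ j) := by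
    intro t
    have h1 : MvPolynomial.eval t (al P) =
        MvPolynomial.eval (fun a => c a (∑ i, (t i / 2) • G i)) P := by
      have h2 : ((MvPolynomial.aeval t : MvPolynomial (Fin m) ℝ →ₐ[ℝ] ℝ).comp al) =
          (MvPolynomial.aeval (fun a => c a (∑ i, (t i / 2) • G i)) :
            MvPolynomial (Fin q) ℝ →ₐ[ℝ] ℝ) := by
        refine MvPolynomial.algHom_ext fun a => ?_
        rw [AlgHom.comp_apply, hal, MvPolynomial.aeval_X, MvPolynomial.aeval_X, map_sum, map_sum]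
        refine Finset.sum_congr rfl fun i _ => ?_
        rw [map_mul, MvPolynomial.aeval_X, MvPolynomial.aeval_C, map_smul]
        simp only [Algebra.algebraMap_self, RingHom.id_apply, smul_eq_mul]
        ring
      have h3 := DFunLike.congr_fun h2 P
      rw [AlgHom.comp_apply, MvPolynomial.aeval_eq_eval, MvPolynomial.aeval_eq_eval] at h3
      exact h3
    rw [h1, hP, GR2_tau_apply]
    have h4 : (-Complex.I) • (∑ i, (t i / 2) • G i) = ∑ i, t i • Y i := by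
      rw [Finset.smul_sum]
      refine Finset.sum_congr rfl fun i _ => ?_
      rw [hY]
      simp only [GR2_scal, smul_smul]
      congr 1
      push_cast
      ring
    rw [h4]
  rw [hPF, GR2_expand (GR2_tau n) j Y (al P) hPt Ψ]
  obtain ⟨k, rfl⟩ : ∃ k, j = k + 1 := ⟨j - 1, by omega⟩
  obtain ⟨v, hv1, hv⟩ := GR2_rank π hπ
  have hsum : (∑ i, Y i ⊗ₜ[ℝ] Ψ (MvPolynomial.X i)) = ∑ μ, ∑ ν, GR2_kap K L ((1 / 2 : ℝ) •
      (((-Complex.I) • (1 : M (n + 1))) * (D μ * D ν - D ν * D μ))) ⊗ₜ[ℝ] (Λ.e μ * Λ.e ν) := by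
    simp only [hΨX]
    rw [← Equiv.sum_comp eqv, Fintype.sum_prod_type]
    refine Finset.sum_congr rfl fun μ _ => Finset.sum_congr rfl fun ν _ => ?_
    simp only [hY, hG, hε, Equiv.symm_apply_apply, hF]
    congr 1
    rw [map_smul, smul_mul_assoc, one_mul]
    congr 1
    rw [GR2_kap_apply]
    ext z i
    simp
  rw [hsum]
  refine GR2_main (GR2_kap K L) π (GR2_tau (n + 1)) (GR2_tau n) D Λ.e
    ((-Complex.I) • (1 : M (n + 1))) _ Λ.ee ?_ ?_ (GR2_kap_mul K L π hLK)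
    (GR2_kap_pi K L π hKL hLK) (GR2_kap_tau K L π hLK) hπ.1 hD ?_ ?_ k
  · intro a
    rw [smul_mul_assoc, mul_smul_comm, one_mul, mul_one]
  · intro a a'
    have := GR2_tau_comm (n + 1) 1 a a'
    simpa using this
  · intro μ ν
    rw [GR2_rank_mul π v hv, GR2_rank_tr π v hv, GR2_scal, GR2_real v _ _ (hDs μ) (hDs ν)]
    congr 1
    have h5 : (((-Complex.I) • (1 : M (n + 1))) * (D μ * D ν - D ν * D μ)) v =
      (-Complex.I) • ((D μ * D ν - D ν * D μ) v) := rfl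
    rw [h5, inner_smul_right]
  · rw [GR2_tau_apply]
    have h6 := GR2_rank_tr π v hv 1
    rw [mul_one] at h6
    rw [h6]
    have h7 : (1 : M (n + 1)) v = v := rfl
    rw [h7, hv1, Complex.one_re]

end Pool.Agent.Helper83.CB
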